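import Mathlib
import Pool.Agent.H97R2.BP.Defs
import Pool.Agent.H97R2.BP.Defs2

open scoped ComplexOrder InnerProductSpace ComplexConjugate TensorProduct
open Finset H759R2.Kad H710R2.DP

noncomputable section

namespace H97R2.BP

namespace ZZ536

variable {H : Type} [NormedAddCommGroup H] [InnerProductSpace ℂ H] [CompleteSpace H]

/-- A central projection of the operator kind gives one of the abstract kind. -/
theorem cprj_of_isCP (M : VonNeumannAlgebra H) (p : H →L[ℂ] H) (hp : IsCP M p) :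
    CPrj (⟨p, hp.2.1⟩ : M.toStarSubalgebra) := by
  refine ⟨⟨Subtype.ext hp.1.1, Subtype.ext hp.1.2⟩, fun a => Subtype.ext ?_⟩
  exact hp.2.2 a.1 a.2

theorem isCP_of_cprj (M : VonNeumannAlgebra H) (z : M.toStarSubalgebra) (hz : CPrj z) :
    IsCP M (z : H →L[ℂ] H) := by
  refine ⟨⟨congrArg Subtype.val hz.1.1, congrArg Subtype.val hz.1.2⟩, z.2, fun a ha => ?_⟩
  exact congrArg Subtype.val (hz.2 ⟨a, ha⟩)

/-- Cutting matrix units down by a central projection. -/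
theorem mu_cut (M : VonNeumannAlgebra H) (p z : H →L[ℂ] H) (hz : IsCP M z)
    (hpM : p ∈ M) (hpz : p * z = z) (L : ℕ) (e : Fin L → Fin L → (H →L[ℂ] H))
    (he : MU M p L e) : MU M z L (fun i j => z * e i j) := by
  have hc : ∀ i j, z * e i j = e i j * z := fun i j => hz.2.2 _ (he.mem i j)
  refine ⟨fun i j => mul_mem hz.2.1 (he.mem i j), fun i j => ?_, fun i j k l => ?_, ?_⟩
  · rw [star_mul, he.adj, hz.1.1, hc]
  · rw [show z * e i j * (z * e k l) = z * (e i j * z) * e k l by simp only [mul_assoc],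
      ← hc i j, show z * (z * e i j) * e k l = z * z * (e i j * e k l) by simp only [mul_assoc],
      hz.1.2, he.mul]
    split_ifs
    · rfl
    · rw [mul_zero]
  · rw [← Finset.mul_sum, he.sum, hz.2.2 p hpM, hpz]

theorem key (a1 : Z_conj) (a2 : Z_fin) (a3 : Z_state) (a4 : Z_hyp) (b2 : W_sub.{0})
    (b3 : W_trace.{0}) (b4 : C_wst.{0}) (M : VonNeumannAlgebra H)
    (P : (H →L[ℂ] H) →ₗ[ℂ] (H →L[ℂ] H)) (c : ℝ) (hc : 1 ≤ c) (hP : IsProj M P c)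
    (p : H →L[ℂ] H) (hp : IsCP M p) (hF : Fnt (⟨p, hp.2.1⟩ : M.toStarSubalgebra))
    (hB : PieceB M p) (z : H →L[ℂ] H) (hz : IsCP M z) (hpz : p * z = z) (hz0 : z ≠ 0) :
    ∃ Ψ : (H →L[ℂ] H) →ₗ[ℂ] ℂ, HypTr M Ψ z := by
  obtain ⟨C, hC⟩ := a1 H
  obtain ⟨L, hL, e, he, -⟩ := hB (⌈96 * c ^ 2⌉₊ + 1)
  obtain ⟨L', rfl⟩ : ∃ L', L = L' + 1 := ⟨L - 1, by omega⟩
  have hL' : 96 * c ^ 2 ≤ (L' : ℝ) := by
    refine (Nat.le_ceil _).trans ?_
    exact_mod_cast (by omega : ⌈96 * c ^ 2⌉₊ ≤ L')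
  have hE := mu_cut M p z hz hp.2.1 hpz (L' + 1) e he
  set E : Fin (L' + 1) → Fin (L' + 1) → (H →L[ℂ] H) := fun i j => z * e i j with hEdef
  -- elements of the algebra
  let F : Fin (L' + 1) → Fin (L' + 1) → M.toStarSubalgebra := fun i j => ⟨E i j, hE.mem i j⟩
  let zz : M.toStarSubalgebra := ⟨z, hz.2.1⟩
  have hzz : CPrj zz := cprj_of_isCP M z hz
  have hzz0 : zz ≠ 0 := fun h => hz0 (congrArg Subtype.val h)
  have hpP : CPrj (⟨p, hp.2.1⟩ : M.toStarSubalgebra) := cprj_of_isCP M p hp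
  have hzF : Fnt zz := b2 _ (⟨p, hp.2.1⟩ : M.toStarSubalgebra) zz hpP.1 hzz.1
    (Subtype.ext hpz) hF
  obtain ⟨τ, hτ⟩ := b3 M.toStarSubalgebra (b4 H M) zz hzz hzz0 hzF
  have hsum : ∑ i, F i i = zz := by
    apply Subtype.ext
    rw [AddSubmonoidClass.coe_finsetSum]
    exact hE.sum
  have hFmul : ∀ i j k l, F i j * F k l = if j = k then F i l else 0 := by
    intro i j k l
    apply Subtype.ext
    have h := hE.mul i j k l
    split_ifs with hjk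
    · rw [if_pos hjk] at h
      exact h
    · rw [if_neg hjk] at h
      exact h
  have hτF : ∀ i, τ (F i i) = τ (F 0 0) := by
    intro i
    have h1 : F i i = F i 0 * F 0 i := by rw [hFmul, if_pos rfl]
    have h2 : F 0 0 = F 0 i * F i 0 := by rw [hFmul, if_pos rfl]
    rw [h1, h2, hτ.comm]
  have hτq : τ (F 0 0) ≠ 0 := by
    intro h0
    have h1 : τ zz = 0 := by
      rw [← hsum, map_sum]
      exact Finset.sum_eq_zero fun i _ => by rw [hτF, h0]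
    rw [hτ.one] at h1
    exact one_ne_zero h1
  have hqPr : IsPr (F 0 0 : H →L[ℂ] H) := by
    refine ⟨hE.adj 0 0, ?_⟩
    have h := hE.mul 0 0 0 0
    rw [if_pos rfl] at h
    exact h
  have hq0 : (F 0 0 : H →L[ℂ] H) ≠ 0 := by
    intro h
    apply hτq
    have : F 0 0 = 0 := Subtype.ext h
    rw [this, map_zero]
  have hmem : ∀ i, E i 0 ∈ M := fun i => hE.mem i 0
  have horth : ∀ i j, star (E i 0) * E j 0 = if i = j then (F 0 0 : H →L[ℂ] H) else 0 := by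
    intro i j
    rw [hE.adj, hE.mul]
  have hineq := a2 H C hC M P c hc hP L' (fun i => E i 0) (F 0 0) hqPr hmem horth hL' τ hτ.pos
    hτ.comm hτq
  obtain ⟨ψ, h1, h2, h3, h4⟩ := a3 H C hC M (F 0 0 : H →L[ℂ] H) (F 0 0).2 hqPr hq0 hineq
  exact a4 H M z hz L' E hE ⟨ψ, h1, h2, h3, h4⟩

/-- Scaling of a tuple of vectors. -/
theorem scale (M : VonNeumannAlgebra H) (p : H →L[ℂ] H) (k : ℕ) (η : Fin k → H)
    (hη : ∀ j, p (η j) = η j) (h0 : ∃ j, η j ≠ 0)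
    (hn : ∀ x ∈ M, ∑ j, ‖star x (η j)‖ ^ 2 ≤ 2 * ∑ j, ‖x (η j)‖ ^ 2) :
    ∃ η' : Fin k → H, (∀ j, p (η' j) = η' j) ∧ (∃ j, η' j ≠ 0) ∧ ∑ j, ‖η' j‖ ^ 2 = 1 ∧
      ∀ x ∈ M, ∑ j, ‖star x (η' j)‖ ^ 2 ≤ 2 * ∑ j, ‖x (η' j)‖ ^ 2 := by
  obtain ⟨j₀, hj₀⟩ := h0
  set S : ℝ := ∑ j, ‖η j‖ ^ 2 with hS
  have hSpos : 0 < S := by
    refine Finset.sum_pos' (fun j _ => by positivity) ⟨j₀, Finset.mem_univ _, ?_⟩
    have := norm_pos_iff.mpr hj₀
    positivity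
  set s : ℝ := (√S)⁻¹ with hs
  have hspos : 0 < s := by positivity
  have hs2 : s ^ 2 * S = 1 := by
    rw [hs, inv_pow, Real.sq_sqrt hSpos.le, inv_mul_cancel₀ hSpos.ne']
  have hnorm : ∀ (T : H →L[ℂ] H) (j : Fin k), ‖T ((s : ℂ) • η j)‖ ^ 2 = s ^ 2 * ‖T (η j)‖ ^ 2 := by
    intro T j
    rw [map_smul, norm_smul, mul_pow, Complex.norm_real, Real.norm_eq_abs, sq_abs]
  refine ⟨fun j => (s : ℂ) • η j, fun j => ?_, ⟨j₀, ?_⟩, ?_, fun x hx => ?_⟩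
  · show p ((s : ℂ) • η j) = (s : ℂ) • η j
    rw [map_smul, hη]
  · exact smul_ne_zero (by exact_mod_cast hspos.ne') hj₀
  · have : ∀ j, ‖(s : ℂ) • η j‖ ^ 2 = s ^ 2 * ‖η j‖ ^ 2 := fun j => by
      rw [norm_smul, mul_pow, Complex.norm_real, Real.norm_eq_abs, sq_abs]
    rw [Finset.sum_congr rfl (fun j _ => this j), ← Finset.mul_sum]
    exact hs2
  · rw [Finset.sum_congr rfl (fun j _ => hnorm (star x) j),
      Finset.sum_congr rfl (fun j _ => hnorm x j), ← Finset.mul_sum, ← Finset.mul_sum]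
    have := hn x hx
    nlinarith [mul_le_mul_of_nonneg_left this (sq_nonneg s)]

end ZZ536

theorem bp_fincase (a1 : Z_conj) (a2 : Z_fin) (a3 : Z_state) (a4 : Z_hyp) (a5 : Z_near) (a6 : Z_glo)
    (a7 : Z_cmpr) (a8 : Z_finE) (a9 : Z_pieceA) (b1 : V_struct.{0}) (b2 : W_sub.{0})
    (b3 : W_trace.{0}) (b4 : C_wst.{0}) : Z_fincase := by
  intro H _ _ _ M P c hc hP z hz hz0 hfz
  have hzCP : IsCP M (z : H →L[ℂ] H) := ZZ536.isCP_of_cprj M z hz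
  have hzne : (z : H →L[ℂ] H) ≠ 0 := fun h => hz0 (Subtype.ext h)
  obtain ⟨p, hp, hp0, hzp, hAB⟩ := b1 H M z hzCP hzne
  rcases hAB with hA | hB
  · exact ⟨p, hp, hp0, hzp, a9 H M p hp hA⟩
  have hpC : CPrj (⟨p, hp.2.1⟩ : M.toStarSubalgebra) := ZZ536.cprj_of_isCP M p hp
  have hpF : Fnt (⟨p, hp.2.1⟩ : M.toStarSubalgebra) :=
    b2 _ z (⟨p, hp.2.1⟩ : M.toStarSubalgebra) hz.1 hpC.1 (Subtype.ext hzp) hfz
  have hkey := ZZ536.key a1 a2 a3 a4 b2 b3 b4 M P c hc hP p hp hpF hB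
  obtain ⟨k, η₀, hη₀, hη₀0, hn₀⟩ := a5 H M (⟨p, hp.2.1⟩ : M.toStarSubalgebra) hpC
    (fun h => hp0 (congrArg Subtype.val h)) hpF
  obtain ⟨η, hη, hη0, hη1, hn⟩ := ZZ536.scale M p k η₀ hη₀ hη₀0 hn₀
  obtain ⟨Ψ, hΨ, hΨc⟩ := a6 H M p hp (fun z' h1 h2 h3 => hkey z' h1 h2 h3) k η hη hη1
  have hcmp := a7 H M p hp k η hη hn Ψ hΨ hΨc
  obtain ⟨p', hp', hp'0, hpp', hInj⟩ := a8 H M p hp k η Ψ hη0 hη hΨ hcmp
  refine ⟨p', hp', hp'0, ?_, hInj⟩
  rw [← hpp', ← mul_assoc, hzp]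

end H97R2.BP
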